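import Pool.Agent.Q215.CsE

/-!
# Hypersmooth canonization on the Carlson-Simpson space: negative answer

There is one Borel (hence analytic) equivalence relation `E` on the space `CS` of all
equivalence relations on `ℕ` with infinitely many classes which is not hypersmooth on any Borel
set outside the ideal. In particular the ideal canonizes `E` to no hypersmooth equivalence
relation on any Polish space.
-/

open MeasureTheory Q215.CSp

namespace Pool.Agent.Results.MP_2823fe_lc.NotHypersmooth

theorem result :
    PolishSpace CS ∧ ¬ Ideal (Set.univ : Set CS) ∧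
    ∃ E : CS → CS → Prop, Equivalence E ∧
      MeasurableSet {p : CS × CS | E p.1 p.2} ∧
      AnalyticSet {p : CS × CS | E p.1 p.2} ∧
      (∀ C : Set CS, MeasurableSet C → ¬ Ideal C → ¬ Hypersmooth (fun x y : C => E x y)) ∧
      ∀ (Y : Type) [TopologicalSpace Y] [PolishSpace Y] [MeasurableSpace Y] [BorelSpace Y]
        (F : Y → Y → Prop), Equivalence F → Hypersmooth F → ¬ Canonizes E F := by
  refine ⟨inferInstance, not_ideal_univ, EC, EC_equivalence, measurableSet_EC,
    measurableSet_EC.analyticSet, fun C hC hCI => not_hypersmooth hC hCI, ?_⟩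
  intro Y _ _ _ _ F _ hF hcan
  obtain ⟨C, -, hC, hCI, hred⟩ := hcan Set.univ MeasurableSet.univ not_ideal_univ
  exact not_hypersmooth hC hCI (hF.comap hred)

end Pool.Agent.Results.MP_2823fe_lc.NotHypersmooth
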